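import Mathlib
import Pool.Agent.Helper34.LF.St

set_option autoImplicit false

/-!
Project LF (MP_62b59a_co), module DQ: degenerate sets of type `(2,2)`.
-/

namespace Pool.Agent.Helper91.LF

open Finset Pool.Agent.Helper34.LF

theorem pDQ : StDQ := by
  classical
  intro N _
  let f : VA N × VA N × VB N × (Fin 4 → ZMod 2) → Finset (VA N) × Finset (VB N) :=
    fun q => ({q.1, q.2.1}, {q.2.2.1, (q.2.2.2, -(q.1.2.2 + q.1.2.2) - q.2.2.1.2)})
  have hsub : ((((univ : Finset (VA N)).powersetCard 2) ×ˢ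
      ((univ : Finset (VB N)).powersetCard 2)).filter
      fun p => ∃ a ∈ p.1, a.2.2 + a.2.2 = -∑ y ∈ p.2, y.2) ⊆ univ.image f := by
    rintro ⟨X, Y⟩ hp
    rw [mem_filter, mem_product, mem_powersetCard, mem_powersetCard] at hp
    obtain ⟨⟨⟨-, hX⟩, -, hY⟩, a, ha, hs⟩ := hp
    dsimp only at hX hY ha hs
    obtain ⟨x, x', hxx, rfl⟩ := Finset.card_eq_two.1 hX
    obtain ⟨b, b', hbb, rfl⟩ := Finset.card_eq_two.1 hY
    rw [Finset.sum_pair hbb] at hs
    have hb' : b' = (b'.1, -(a.2.2 + a.2.2) - b.2) := by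
      refine Prod.ext rfl ?_
      change b'.2 = -(a.2.2 + a.2.2) - b.2
      rw [hs]
      ring
    rw [mem_image]
    rw [Finset.mem_insert, Finset.mem_singleton] at ha
    rcases ha with rfl | rfl
    · refine ⟨(a, x', b, b'.1), mem_univ _, ?_⟩
      change (({a, x'} : Finset (VA N)), ({b, (b'.1, -(a.2.2 + a.2.2) - b.2)} : Finset (VB N))) = _
      rw [← hb']
    · refine ⟨(a, x, b, b'.1), mem_univ _, ?_⟩
      change (({a, x} : Finset (VA N)), ({b, (b'.1, -(a.2.2 + a.2.2) - b.2)} : Finset (VB N))) = _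
      rw [← hb', Finset.pair_comm a x]
  refine (card_le_card hsub).trans (card_image_le.trans ?_)
  rw [Finset.card_univ]
  simp only [Fintype.card_prod, Fintype.card_fin, ZMod.card, Fintype.card_pi, Finset.prod_const,
    Finset.card_univ]
  apply le_of_eq
  ring

end Pool.Agent.Helper91.LF
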